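import Pool.Agent.X235.Alg.Main

set_option autoImplicit false

/-!
A nontrivial variety whose isomorphism relations for `n`-generated c.e. presented members all have
the same complexity, strictly below the `Σ⁰₃`-complete degree.
-/

namespace Pool.Agent.Results.MP_f76ce6_lc.ConstantOperations

open Pool.Agent.X235.Alg

/-- There is a nontrivial variety (in the signature of the unary symbols `f_0, f_1, ...`) such that
for every `n ≥ 1` the isomorphism relation of `n`-generated c.e. presented members is
computably bireducible with the one for `n + 1` generators, and lies strictly below `E_0^{ce}` and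
strictly below every `Σ⁰₃`-complete equivalence relation. -/
theorem result : ∃ L : Set (Term ℕ × Term ℕ),
    (∃ A : UAlg, A.Sat L ∧ ∃ a b : A.carrier, a ≠ b) ∧
    ∀ n : ℕ, 1 ≤ n → CEquiv (IsoRel L n) (IsoRel L (n + 1)) ∧ CLt (IsoRel L n) E0ce ∧
      ∀ E : ℕ → ℕ → Prop, Sigma3Complete E → CLt (IsoRel L n) E := by
  refine ⟨L0, L0_nontrivial, fun n hn => ⟨⟨?_, ?_⟩, ⟨?_, ?_⟩, fun E hE => ⟨?_, ?_⟩⟩⟩
  · exact (iso_red_ceq hn).trans (ceq_red_iso (Nat.succ_pos n))
  · exact (iso_red_ceq (Nat.succ_pos n)).trans (ceq_red_iso hn)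
  · exact (iso_red_ceq hn).trans ceq_red_E0
  · exact fun h => E0_not_red (h.trans (iso_red_ceq hn))
  · exact ((iso_red_ceq hn).trans ceq_red_E0).trans (hE.2.2 _ E0_equiv E0_sigma3)
  · exact fun h => E0_not_red (((hE.2.2 _ E0_equiv E0_sigma3).trans h).trans (iso_red_ceq hn))

end Pool.Agent.Results.MP_f76ce6_lc.ConstantOperations
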